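import Pool.Agent.H759.KP.Coarse
import Pool.Graph.R_pool_sql_team_seeded_843ab51a.V11115.VC.F

/-!
The matrices of `s_2` and `s_1⁻¹` on the spaces of highest weight vectors belong to the analytic
family.
-/

set_option autoImplicit false

namespace Pool.Agent.H759.KB

open Matrix Finset Pool.Agent.H550R3.Jones Pool.Agent.W715.VC Pool.Agent.V11115.VC
open Pool.Agent.H759.PTB (sc aR aL sc_mul)

noncomputable section

variable {N : ℕ}

/-- the parameter `π / N` -/
def tN (N : ℕ) : ℂ := ((Real.pi / N : ℝ) : ℂ)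

/-- the gauge -/
def gg (N n : ℕ) : ℂ := ∏ j ∈ range n, sc ((((j : ℝ) + 1 : ℝ) : ℂ) * tN N)

lemma tN_ne (hN : 0 < N) : tN N ≠ 0 := by
  unfold tN
  have h1 : (0 : ℝ) < N := by exact_mod_cast hN
  have h2 : 0 < Real.pi / N := div_pos Real.pi_pos h1
  exact_mod_cast h2.ne'

lemma sn_sc (N j : ℕ) : ((sn N ((j : ℤ) + 1) : ℝ) : ℂ) =
    ((((j : ℝ) + 1 : ℝ) : ℂ) * tN N) * sc ((((j : ℝ) + 1 : ℝ) : ℂ) * tN N) := by
  rw [sc_mul]
  unfold sn tN
  rw [Complex.ofReal_sin]
  congr 1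
  push_cast
  ring

lemma FF_gg (N n : ℕ) : ((FF1 N n : ℝ) : ℂ) = (n.factorial : ℂ) * tN N ^ n * gg N n := by
  induction n with
  | zero => simp [FF1, gg]
  | succ n ih =>
    have e1 : FF1 N (n + 1) = FF1 N n * sn N ((n : ℤ) + 1) := by unfold FF1; rw [prod_range_succ]
    have e2 : gg N (n + 1) = gg N n * sc ((((n : ℝ) + 1 : ℝ) : ℂ) * tN N) := by
      unfold gg; rw [prod_range_succ]
    rw [e1, e2, Complex.ofReal_mul, ih, sn_sc, Nat.factorial_succ]
    push_cast
    ring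

lemma gg_ne {n : ℕ} (hn : n < N) : gg N n ≠ 0 := by
  have h1 : ((FF1 N n : ℝ) : ℂ) ≠ 0 := by exact_mod_cast (FF1_pos hn).ne'
  rw [FF_gg] at h1
  exact right_ne_zero_of_mul h1

lemma qb_gg {d e : ℕ} (hd : d < N) (he : e ≤ d) : ((qb N d e : ℝ) : ℂ) =
    (d.choose e : ℂ) * (gg N d / (gg N e * gg N (d - e))) := by
  have hN : 0 < N := by omega
  rw [qb_FF hd he]
  push_cast
  rw [FF_gg, FF_gg, FF_gg]
  have h1 : ((d.choose e : ℕ) : ℂ) * (e.factorial : ℂ) * ((d - e).factorial : ℂ)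
      = (d.factorial : ℂ) := by
    exact_mod_cast Nat.choose_mul_factorial_mul_factorial he
  have h2 : tN N ^ d = tN N ^ e * tN N ^ (d - e) := by
    rw [← pow_add]; congr 1; omega
  have h3 : (e.factorial : ℂ) ≠ 0 := by exact_mod_cast Nat.factorial_ne_zero e
  have h4 : ((d - e).factorial : ℂ) ≠ 0 := by exact_mod_cast Nat.factorial_ne_zero _
  have h5 := pow_ne_zero e (tN_ne hN)
  have h6 := pow_ne_zero (d - e) (tN_ne hN)
  have h7 := gg_ne (N := N) (n := e) (by omega)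
  have h8 := gg_ne (N := N) (n := d - e) (by omega)
  rw [← h1, h2]
  field_simp

lemma exp_shift {x y : ℝ} (d : ℕ) (h : x = y - 2 * Real.pi * d) :
    Complex.exp ((x : ℂ) * Complex.I) = Complex.exp ((y : ℂ) * Complex.I) := by
  have h1 : (x : ℂ) * Complex.I + (d : ℂ) * (2 * Real.pi * Complex.I) = (y : ℂ) * Complex.I := by
    rw [h]; push_cast; ring
  rw [← h1, Complex.exp_add, Complex.exp_nat_mul, Complex.exp_two_pi_mul_I, one_pow, mul_one]

lemma neg_one_exp (k : ℕ) : ((-1 : ℂ)) ^ k = Complex.exp (((Real.pi * k : ℝ) : ℂ) * Complex.I) := by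
  rw [← Complex.exp_pi_mul_I, ← Complex.exp_nat_mul]
  congr 1
  push_cast
  ring

lemma I_exp (k : ℕ) : Complex.I ^ k = Complex.exp (((Real.pi / 2 * k : ℝ) : ℂ) * Complex.I) := by
  have h : Complex.exp (((Real.pi / 2 : ℝ) : ℂ) * Complex.I) = Complex.I := by
    push_cast
    exact Complex.exp_pi_div_two_mul_I
  rw [← h, ← Complex.exp_nat_mul, h]
  congr 1
  push_cast
  ring

lemma I_inv_exp (k : ℕ) : (Complex.I ^ k)⁻¹
    = Complex.exp (((-(Real.pi / 2 * k) : ℝ) : ℂ) * Complex.I) := by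
  rw [I_exp, ← Complex.exp_neg]
  congr 1
  push_cast
  ring

/-- the constant -/
def k0 (m K : ℕ) : ℝ := m * (m + 1) - ((K : ℝ) + 1) * (K - 1) / 4

/-- the common phase of `s_2` -/
def cR (N m K : ℕ) : ℂ :=
  -rt N * Complex.exp (((Real.pi * m + Real.pi / N * k0 m K : ℝ) : ℂ) * Complex.I)

/-- the common phase of `s_1⁻¹` -/
def cL (N m K : ℕ) : ℂ :=
  -(rt N)⁻¹ * Complex.exp (((Real.pi * m - Real.pi / N * k0 m K : ℝ) : ℂ) * Complex.I)

lemma norm_rt (N : ℕ) : ‖rt N‖ = 1 := by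
  have := norm_rt_zpow N 1
  rwa [_root_.zpow_one] at this

lemma norm_cR (N m K : ℕ) : ‖cR N m K‖ = 1 := by
  unfold cR
  rw [norm_mul, norm_neg, norm_rt, Complex.norm_exp_ofReal_mul_I, one_mul]

lemma norm_cL (N m K : ℕ) : ‖cL N m K‖ = 1 := by
  unfold cL
  rw [norm_mul, norm_neg, norm_inv, norm_rt, Complex.norm_exp_ofReal_mul_I, inv_one, one_mul]

lemma phase_R {m K d e : ℕ} (hm : m < N) (hK : N + K = 2 * m + 1) (hd : d ≤ K) (he : e ≤ K) :
    -rt N * (-1) ^ (m - d) * rt N ^ ((((m - d : ℕ) : ℤ) + 1) * ((m - e : ℕ) : ℤ))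
      = cR N m K * (Complex.I ^ d * (Complex.I ^ e)⁻¹)
        * Complex.exp (Complex.I * ((KP.ph (K + 1) e d : ℂ) * tN N)) := by
  have hN : (0 : ℝ) < N := by exact_mod_cast (by omega : 0 < N)
  have hKm : K ≤ m := by omega
  have hNm : (m : ℝ) = ((N : ℝ) + K - 1) / 2 := by
    have : (N : ℝ) + K = 2 * m + 1 := by exact_mod_cast hK
    linarith
  unfold cR
  rw [neg_one_exp, rt_zpow, I_exp, I_inv_exp]
  have e1 : Complex.I * ((KP.ph (K + 1) e d : ℂ) * tN N)
      = ((KP.ph (K + 1) e d * (Real.pi / N) : ℝ) : ℂ) * Complex.I := by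
    unfold tN; push_cast; ring
  rw [e1]
  have key : Complex.exp (((Real.pi * ((m - d : ℕ) : ℝ) : ℝ) : ℂ) * Complex.I)
      * Complex.exp (((Real.pi * ((((((m - d : ℕ) : ℤ) + 1) * ((m - e : ℕ) : ℤ) : ℤ)) : ℝ) / N : ℝ)
        : ℂ) * Complex.I)
      = Complex.exp (((Real.pi * m + Real.pi / N * k0 m K : ℝ) : ℂ) * Complex.I)
        * (Complex.exp (((Real.pi / 2 * d : ℝ) : ℂ) * Complex.I)
          * Complex.exp (((-(Real.pi / 2 * e) : ℝ) : ℂ) * Complex.I))
        * Complex.exp (((KP.ph (K + 1) e d * (Real.pi / N) : ℝ) : ℂ) * Complex.I) := by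
    rw [← Complex.exp_add, ← Complex.exp_add, ← Complex.exp_add, ← Complex.exp_add, ← add_mul,
      ← add_mul, ← add_mul, ← add_mul, ← Complex.ofReal_add, ← Complex.ofReal_add,
      ← Complex.ofReal_add, ← Complex.ofReal_add]
    apply exp_shift d
    unfold k0 KP.ph
    have f1 : ((m - d : ℕ) : ℝ) = m - d := by rw [Nat.cast_sub (by omega)]
    have f2 : ((((((m - d : ℕ) : ℤ) + 1) * ((m - e : ℕ) : ℤ) : ℤ)) : ℝ)
        = ((m : ℝ) - d + 1) * (m - e) := by
      push_cast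
      rw [Nat.cast_sub (by omega), Nat.cast_sub (by omega)]
    rw [f1, f2]
    push_cast
    rw [hNm]
    have hNe := hN.ne'
    field_simp
    ring
  linear_combination (-rt N) * key

lemma phase_L {m K d e : ℕ} (hm : m < N) (hK : N + K = 2 * m + 1) (hd : d ≤ K) (he : e ≤ K) :
    -(rt N)⁻¹ * (-1) ^ (m - e) * rt N ^ (-(((m - e : ℕ) : ℤ) + 1) * ((m - d : ℕ) : ℤ))
      = cL N m K * (Complex.I ^ d * (Complex.I ^ e)⁻¹)
        * Complex.exp (-(Complex.I * ((KP.ph (K + 1) d e : ℂ) * tN N))) := by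
  have hN : (0 : ℝ) < N := by exact_mod_cast (by omega : 0 < N)
  have hKm : K ≤ m := by omega
  have hNm : (m : ℝ) = ((N : ℝ) + K - 1) / 2 := by
    have : (N : ℝ) + K = 2 * m + 1 := by exact_mod_cast hK
    linarith
  unfold cL
  rw [neg_one_exp, rt_zpow, I_exp, I_inv_exp]
  have e1 : -(Complex.I * ((KP.ph (K + 1) d e : ℂ) * tN N))
      = ((-(KP.ph (K + 1) d e * (Real.pi / N)) : ℝ) : ℂ) * Complex.I := by
    unfold tN; push_cast; ring
  rw [e1]
  have key : Complex.exp (((Real.pi * ((m - e : ℕ) : ℝ) : ℝ) : ℂ) * Complex.I)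
      * Complex.exp (((Real.pi * (((-(((m - e : ℕ) : ℤ) + 1) * ((m - d : ℕ) : ℤ) : ℤ)) : ℝ) / N : ℝ)
        : ℂ) * Complex.I)
      = Complex.exp (((Real.pi * m - Real.pi / N * k0 m K : ℝ) : ℂ) * Complex.I)
        * (Complex.exp (((Real.pi / 2 * d : ℝ) : ℂ) * Complex.I)
          * Complex.exp (((-(Real.pi / 2 * e) : ℝ) : ℂ) * Complex.I))
        * Complex.exp (((-(KP.ph (K + 1) d e * (Real.pi / N)) : ℝ) : ℂ) * Complex.I) := by
    rw [← Complex.exp_add, ← Complex.exp_add, ← Complex.exp_add, ← Complex.exp_add, ← add_mul,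
      ← add_mul, ← add_mul, ← add_mul, ← Complex.ofReal_add, ← Complex.ofReal_add,
      ← Complex.ofReal_add, ← Complex.ofReal_add]
    apply exp_shift 0
    unfold k0 KP.ph
    have f1 : ((m - e : ℕ) : ℝ) = m - e := by rw [Nat.cast_sub (by omega)]
    have f2 : (((-(((m - e : ℕ) : ℤ) + 1) * ((m - d : ℕ) : ℤ) : ℤ)) : ℝ)
        = -((m : ℝ) - e + 1) * (m - d) := by
      push_cast
      rw [Nat.cast_sub (by omega), Nat.cast_sub (by omega)]
    rw [f1, f2]
    push_cast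
    rw [hNm]
    have hNe := hN.ne'
    field_simp
    ring
  linear_combination (-(rt N)⁻¹) * key

/-- the gauge factor -/
def Dg (N d : ℕ) : ℂ := Complex.I ^ d * gg N d

lemma Dg_ne {d : ℕ} (hd : d < N) : Dg N d ≠ 0 :=
  mul_ne_zero (pow_ne_zero _ Complex.I_ne_zero) (gg_ne hd)

/-- the entries of `s_2` -/
lemma entry_R {m K d e : ℕ} (hm : m < N) (hK : N + K = 2 * m + 1) (hd : d ≤ K) (he : e ≤ K) :
    -rt N * (-1) ^ (m - d) * rt N ^ ((((m - d : ℕ) : ℤ) + 1) * ((m - e : ℕ) : ℤ))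
        * ((qb N d e : ℝ) : ℂ)
      = cR N m K * (Dg N d * ((aR d e : ℂ) * KP.exR (K + 1) d e (tN N)) * (Dg N e)⁻¹) := by
  rw [phase_R hm hK hd he]
  by_cases h : e ≤ d
  · rw [qb_gg (by omega) h]
    unfold aR KP.exR Dg
    rw [mul_inv]
    have h1 : ∏ j ∈ range (d - e), (sc ((((j : ℝ) + 1 : ℝ) : ℂ) * tN N))⁻¹
        = (gg N (d - e))⁻¹ := by
      unfold gg; rw [prod_inv_distrib]
    rw [h1]
    push_cast
    have h7 := gg_ne (N := N) (n := e) (by omega)
    have h8 := gg_ne (N := N) (n := d - e) (by omega)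
    field_simp
  · have h1 : qb N (d : ℤ) e = 0 := qb_gt (by omega)
    have h2 : aR d e = 0 := by
      unfold aR
      rw [Nat.choose_eq_zero_of_lt (by omega)]; simp
    rw [h1, h2]
    simp

lemma gg_add (a b : ℕ) : gg N (a + b) = gg N a * ∏ j ∈ range b,
    sc ((((a : ℝ) + 1 + j : ℝ) : ℂ) * tN N) := by
  unfold gg
  rw [prod_range_add]
  congr 1
  refine prod_congr rfl fun j _ => ?_
  congr 3
  push_cast
  ring

lemma gg_sub {K d e : ℕ} (hde : d ≤ e) (he : e ≤ K) : gg N (K - d) = gg N (K - e)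
    * ∏ j ∈ range (e - d), sc (((((K + 1 : ℕ) : ℝ) - 1 - d - j : ℝ) : ℂ) * tN N) := by
  have h1 : K - d = (K - e) + (e - d) := by omega
  rw [h1, gg_add]
  congr 1
  rw [← prod_range_reflect]
  refine prod_congr rfl fun j hj => ?_
  have hj' := mem_range.1 hj
  congr 3
  rw [Nat.cast_sub (by omega), Nat.cast_sub (by omega), Nat.cast_sub (by omega),
    Nat.cast_sub (by omega)]
  push_cast
  ring

/-- the entries of `s_1⁻¹` -/
lemma entry_L {m K d e : ℕ} (hm : m < N) (hK : N + K = 2 * m + 1) (hd : d ≤ K) (he : e ≤ K) :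
    -(rt N)⁻¹ * (-1) ^ (m - e) * rt N ^ (-(((m - e : ℕ) : ℤ) + 1) * ((m - d : ℕ) : ℤ))
        * ((qb N e d * DD N m (m - e) / DD N m (m - d) : ℝ) : ℂ)
      = cL N m K * (Dg N d * ((aL (K + 1) d e : ℂ) * KP.exL (K + 1) d e (tN N))
        * (Dg N e)⁻¹) := by
  rw [phase_L hm hK hd he]
  by_cases h : d ≤ e
  · rw [DD_eq hm hK hd, DD_eq hm hK he]
    push_cast
    rw [qb_gg (d := e) (e := d) (by omega) h, qb_gg (d := K) (e := K - e) (by omega) (by omega),
      qb_gg (d := K) (e := K - d) (by omega) (by omega)]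
    have haL : aL (K + 1) d e = ((K - d).choose (e - d) : ℝ) := by
      unfold aL
      rw [if_pos h, Nat.add_sub_cancel]
    rw [haL]
    unfold KP.exL Dg
    simp only [prod_mul_distrib]
    have h1 : ∏ j ∈ range (e - d), (sc ((((j : ℝ) + 1 : ℝ) : ℂ) * tN N))⁻¹
        = (gg N (e - d))⁻¹ := by
      unfold gg; rw [prod_inv_distrib]
    have h2 := gg_add (N := N) d (e - d)
    rw [show d + (e - d) = e by omega] at h2
    have h3 := gg_sub (N := N) h he
    have n1 := gg_ne (N := N) (n := e) (by omega)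
    have n2 := gg_ne (N := N) (n := d) (by omega)
    have n3 := gg_ne (N := N) (n := e - d) (by omega)
    have n4 := gg_ne (N := N) (n := K) (by omega)
    have n5 := gg_ne (N := N) (n := K - d) (by omega)
    have n6 := gg_ne (N := N) (n := K - e) (by omega)
    have e1 : K - (K - e) = e := by omega
    have e2 : K - (K - d) = d := by omega
    have h4 : ∏ j ∈ range (e - d), sc ((((d : ℝ) + 1 + j : ℝ) : ℂ) * tN N) = gg N e / gg N d := by
      rw [eq_div_iff n2, h2]; ring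
    have h5 : ∏ j ∈ range (e - d), sc (((((K + 1 : ℕ) : ℝ) - 1 - d - j : ℝ) : ℂ) * tN N)
        = gg N (K - d) / gg N (K - e) := by
      rw [eq_div_iff n6, h3]; ring
    rw [h1, h4, h5, e1, e2]
    -- binomials
    have c1 : (K.choose (K - e) : ℂ) ≠ 0 := by
      exact_mod_cast (Nat.choose_pos (by omega : K - e ≤ K)).ne'
    have c2 : (K.choose (K - d) : ℂ) ≠ 0 := by
      exact_mod_cast (Nat.choose_pos (by omega : K - d ≤ K)).ne'
    have c3 : (e.choose d : ℂ) * (K.choose (K - e) : ℂ)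
        = (K.choose (K - d) : ℂ) * ((K - d).choose (e - d) : ℂ) := by
      have := Nat.choose_mul (n := K) (k := e) (s := d) h
      have g1 : K.choose (K - e) = K.choose e := Nat.choose_symm he
      have g2 : K.choose (K - d) = K.choose d := Nat.choose_symm hd
      rw [g1, g2]
      have h6 : (K.choose e * e.choose d : ℕ) = K.choose d * (K - d).choose (e - d) := this
      have h7 : ((K.choose e : ℂ) * (e.choose d : ℂ))
        = (K.choose d : ℂ) * ((K - d).choose (e - d) : ℂ) := by exact_mod_cast h6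
      linear_combination h7
    push_cast
    rw [mul_inv]
    field_simp
    linear_combination (cL N m K) * c3
  · have h1 : qb N (e : ℤ) d = 0 := qb_gt (by omega)
    have h2 : aL (K + 1) d e = 0 := if_neg h
    rw [h1, h2]
    simp

end

end Pool.Agent.H759.KB
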