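import Pool.Agent.H759.KB.Word

/-!
The lower bound of the traces of all palindromic braids.
-/

set_option autoImplicit false

namespace Pool.Agent.H759.KB

open Matrix Finset Pool.Agent.H550R3.Jones Pool.Agent.W715.VC Pool.Agent.V11115.VC
open Pool.Agent.H759.PTB (Letter swapL dag)
open Pool.Agent.H759.KP (sw lr dg)

/-! ### syllables -/

lemma sw_append_even (k : ℕ) : ∀ (s : Bool) (l l' : List ℕ), l.length = 2 * k →
    sw s (l ++ l') = sw s l ++ sw s l' := by
  induction k with
  | zero =>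
    intro s l l' hl
    have : l = [] := List.length_eq_zero_iff.1 (by omega)
    subst this
    rfl
  | succ k ih =>
    intro s l l' hl
    match l, hl with
    | a :: b :: l, hl =>
      have h2 : l.length = 2 * k := by simp only [List.length_cons] at hl; omega
      have h3 := ih s l l' h2
      show List.replicate a (lr s) ++ (List.replicate b (lr (!s)) ++ sw (!(!s)) (l ++ l'))
        = (List.replicate a (lr s) ++ (List.replicate b (lr (!s)) ++ sw (!(!s)) l)) ++ sw s l'
      rw [Bool.not_not, h3]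
      simp only [List.append_assoc]

lemma swap_lr (s : Bool) : swapL (lr s) = lr (!s) := by cases s <;> rfl

lemma dag_append (u v : List Letter) : dag (u ++ v) = dag v ++ dag u := by
  unfold dag
  rw [List.reverse_append, List.map_append]

lemma dag_replicate (a : ℕ) (s : Bool) :
    dag (List.replicate a (lr s)) = List.replicate a (lr (!s)) := by
  unfold dag
  rw [List.reverse_replicate, List.map_replicate, swap_lr]

lemma sw_dag (s : Bool) (l : List ℕ) : sw s l ++ dag (sw s l) = sw s (l ++ l.reverse) := by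
  induction l generalizing s with
  | nil => rfl
  | cons a l ih =>
    have h1 : sw s (a :: l) = List.replicate a (lr s) ++ sw (!s) l := rfl
    have h2 : sw s (a :: l ++ (a :: l).reverse)
        = List.replicate a (lr s) ++ sw (!s) ((l ++ l.reverse) ++ [a]) := by
      rw [List.reverse_cons]
      show List.replicate a (lr s) ++ sw (!s) (l ++ (l.reverse ++ [a])) = _
      rw [List.append_assoc]
    rw [h2, sw_append_even l.length (!s) (l ++ l.reverse) [a] (by
      rw [List.length_append, List.length_reverse]; ring), ← ih, h1, dag_append, dag_replicate]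
    show _ = _ ++ (_ ++ (List.replicate a (lr (!s)) ++ []))
    simp only [List.append_assoc, List.append_nil]

lemma exists_sw {w : List Letter} (hw : ∀ x ∈ w, x = Letter.L ∨ x = Letter.R) :
    ∃ (s : Bool) (l : List ℕ), w = sw s l ∧ ∀ a ∈ l, 1 ≤ a ∧ a ≤ w.length := by
  induction w with
  | nil => exact ⟨true, [], rfl, by simp⟩
  | cons x w ih =>
    obtain ⟨s, l, h1, h2⟩ := ih fun y hy => hw y (List.mem_cons_of_mem _ hy)
    obtain ⟨s', hs'⟩ : ∃ s' : Bool, x = lr s' := by
      rcases hw x List.mem_cons_self with rfl | rfl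
      · exact ⟨false, rfl⟩
      · exact ⟨true, rfl⟩
    match l, h1, h2 with
    | [], h1, _ =>
      refine ⟨s', [1], ?_, ?_⟩
      · rw [h1, hs']; rfl
      · intro a ha
        rw [List.mem_singleton] at ha
        subst ha
        exact ⟨le_rfl, by rw [List.length_cons]; omega⟩
    | a :: l, h1, h2 =>
      by_cases hss : s' = s
      · refine ⟨s, (a + 1) :: l, ?_, ?_⟩
        · rw [h1, hs', hss]
          show lr s :: (List.replicate a (lr s) ++ sw (!s) l)
            = List.replicate (a + 1) (lr s) ++ sw (!s) l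
          rw [List.replicate_succ]; rfl
        · intro b hb
          rw [List.length_cons]
          rcases List.mem_cons.1 hb with rfl | hb
          · have := h2 a (by simp)
            omega
          · have := h2 b (by simp [hb])
            omega
      · refine ⟨s', 1 :: a :: l, ?_, ?_⟩
        · rw [h1, hs']
          have : s = !s' := by
            cases s <;> cases s' <;> simp_all
          rw [this]
          rfl
        · intro b hb
          rw [List.length_cons]
          rcases List.mem_cons.1 hb with rfl | hb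
          · omega
          · have := h2 b hb
            omega

lemma toL_dual {w : List (ℕ × Bool)} (hw : ∀ l ∈ w, Pos l) :
    (dual w).map toL = dag (w.map toL) := by
  unfold dual dag
  rw [← List.map_reverse, ← List.map_reverse, List.map_map, List.map_map]
  apply List.map_congr_left
  intro l hl
  rw [List.mem_reverse] at hl
  rcases hw l hl with rfl | rfl <;> rfl

/-! ### the matrix of a positive word -/

lemma mat_mt {w : List (ℕ × Bool)} (hw : ∀ l ∈ w, Pos l) :
    ((mat w 0 0 : ℤ) : ℝ) = (PTB.mt (w.map toL)).1.1 ∧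
    ((mat w 0 1 : ℤ) : ℝ) = -(PTB.mt (w.map toL)).1.2 ∧
    ((mat w 1 0 : ℤ) : ℝ) = -(PTB.mt (w.map toL)).2.1 ∧
    ((mat w 1 1 : ℤ) : ℝ) = (PTB.mt (w.map toL)).2.2 := by
  induction w with
  | nil => simp [mat, PTB.mt]
  | cons l w ih =>
    obtain ⟨h1, h2, h3, h4⟩ := ih fun l' hl' => hw l' (List.mem_cons_of_mem _ hl')
    have e : mat (l :: w) = mat [l] * mat w := by simp [mat]
    rw [e, List.map_cons]
    rcases hw l List.mem_cons_self with rfl | rfl
    · have e2 : mat [(1, true)] = !![1, 0; -1, 1] := by simp [mat]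
      have e3 : PTB.mt (toL (1, true) :: w.map toL) = ((PTB.mt (w.map toL)).1,
        ((PTB.mt (w.map toL)).1.1 + (PTB.mt (w.map toL)).2.1,
          (PTB.mt (w.map toL)).1.2 + (PTB.mt (w.map toL)).2.2)) := rfl
      rw [e2, e3]
      simp only [Matrix.mul_apply, Fin.sum_univ_two, Matrix.of_apply, Matrix.cons_val_zero,
        Matrix.cons_val_one, Matrix.cons_val', Matrix.cons_val_fin_one]
      push_cast
      rw [h1, h2, h3, h4]
      refine ⟨?_, ?_, ?_, ?_⟩ <;> ring
    · have e2 : mat [(0, false)] = !![1, -1; 0, 1] := by simp [mat]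
      have e3 : PTB.mt (toL (0, false) :: w.map toL) = (((PTB.mt (w.map toL)).1.1
        + (PTB.mt (w.map toL)).2.1, (PTB.mt (w.map toL)).1.2 + (PTB.mt (w.map toL)).2.2),
          (PTB.mt (w.map toL)).2) := rfl
      rw [e2, e3]
      simp only [Matrix.mul_apply, Fin.sum_univ_two, Matrix.of_apply, Matrix.cons_val_zero,
        Matrix.cons_val_one, Matrix.cons_val', Matrix.cons_val_fin_one]
      push_cast
      rw [h1, h2, h3, h4]
      refine ⟨?_, ?_, ?_, ?_⟩ <;> ring

lemma trace_le {w : List (ℕ × Bool)} (hw : ∀ l ∈ w, Pos l) :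
    (((mat w).trace : ℤ) : ℝ) / 2 ≤ dg (w.map toL) := by
  obtain ⟨h1, _, _, h4⟩ := mat_mt hw
  rw [Matrix.trace_fin_two]
  push_cast
  rw [h1, h4]
  unfold dg
  have a1 := le_max_left (PTB.mt (w.map toL)).1.1 (PTB.mt (w.map toL)).2.2
  have a2 := le_max_right (PTB.mt (w.map toL)).1.1 (PTB.mt (w.map toL)).2.2
  linarith

/-- the trace does not depend on the powers of `Δ` -/
lemma trace_mat {u w : List (ℕ × Bool)} (hu : ∀ l ∈ u, l.1 < 2) (hw : ∀ l ∈ w, l.1 < 2)
    {p r : ℤ} (h : ev mA mB u = (mA * mB * mA) ^ p * ev mA mB w * (mA * mB * mA) ^ r) :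
    (mat (u ++ dual u)).trace = (mat (w ++ dual w)).trace := by
  have hval : ((mA * mB * mA : (Matrix (Fin 2) (Fin 2) ℤ)ˣ) : Matrix (Fin 2) (Fin 2) ℤ) =
      !![0, 1; -1, 0] := by decide
  have hval' : (((mA * mB * mA)⁻¹ : (Matrix (Fin 2) (Fin 2) ℤ)ˣ) : Matrix (Fin 2) (Fin 2) ℤ) =
      !![0, -1; 1, 0] := by decide
  have hS : ∀ k : ℤ, (((mA * mB * mA) ^ k : (Matrix (Fin 2) (Fin 2) ℤ)ˣ) : Matrix (Fin 2) (Fin 2) ℤ) *
      (((mA * mB * mA) ^ k : (Matrix (Fin 2) (Fin 2) ℤ)ˣ) : Matrix (Fin 2) (Fin 2) ℤ)ᵀ = 1 := by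
    have hn : ∀ n : ℕ, (((mA * mB * mA) ^ n : (Matrix (Fin 2) (Fin 2) ℤ)ˣ) :
        Matrix (Fin 2) (Fin 2) ℤ) * (((mA * mB * mA) ^ n : (Matrix (Fin 2) (Fin 2) ℤ)ˣ) :
        Matrix (Fin 2) (Fin 2) ℤ)ᵀ = 1 := by
      intro n
      induction n with
      | zero => simp
      | succ n ih =>
        rw [pow_succ', Units.val_mul, Matrix.transpose_mul, mul_assoc, ← mul_assoc _ _
          (((mA * mB * mA : (Matrix (Fin 2) (Fin 2) ℤ)ˣ) : Matrix (Fin 2) (Fin 2) ℤ)ᵀ), ih, one_mul,
          hval]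
        decide
    have hn' : ∀ n : ℕ, ((((mA * mB * mA)⁻¹) ^ n : (Matrix (Fin 2) (Fin 2) ℤ)ˣ) :
        Matrix (Fin 2) (Fin 2) ℤ) * ((((mA * mB * mA)⁻¹) ^ n : (Matrix (Fin 2) (Fin 2) ℤ)ˣ) :
        Matrix (Fin 2) (Fin 2) ℤ)ᵀ = 1 := by
      intro n
      induction n with
      | zero => simp
      | succ n ih =>
        rw [pow_succ', Units.val_mul, Matrix.transpose_mul, mul_assoc, ← mul_assoc _ _
          ((((mA * mB * mA)⁻¹ : (Matrix (Fin 2) (Fin 2) ℤ)ˣ) : Matrix (Fin 2) (Fin 2) ℤ)ᵀ), ih,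
          one_mul, hval']
        decide
    intro k
    rcases Int.eq_nat_or_neg k with ⟨n, rfl | rfl⟩
    · rw [zpow_natCast]; exact hn n
    · rw [_root_.zpow_neg, zpow_natCast, ← inv_pow]; exact hn' n
  have h2 : ∀ v : List (ℕ × Bool), (∀ l ∈ v, l.1 < 2) → mat (v ++ dual v) = mat v * (mat v)ᵀ := by
    intro v hv
    have h3 : mat (v ++ dual v) = mat v * mat (dual v) := by simp [mat]
    rw [h3, mat_dual v hv]
  rw [h2 u hu, h2 w hw, ← ev_mat u, h, ← ev_mat w, Units.val_mul, Units.val_mul]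
  have hp := hS p
  have hr := hS r
  have hp' := mul_eq_one_comm.1 hp
  generalize (((mA * mB * mA) ^ p : (Matrix (Fin 2) (Fin 2) ℤ)ˣ) : Matrix (Fin 2) (Fin 2) ℤ) = P at *
  generalize (((mA * mB * mA) ^ r : (Matrix (Fin 2) (Fin 2) ℤ)ˣ) : Matrix (Fin 2) (Fin 2) ℤ) = R at *
  generalize ((ev mA mB w : (Matrix (Fin 2) (Fin 2) ℤ)ˣ) : Matrix (Fin 2) (Fin 2) ℤ) = M at *
  rw [Matrix.transpose_mul, Matrix.transpose_mul]
  calc (P * M * R * (Rᵀ * (Mᵀ * Pᵀ))).trace = (P * (M * (R * Rᵀ) * Mᵀ * Pᵀ)).trace := by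
        simp only [mul_assoc]
    _ = (P * (M * Mᵀ * Pᵀ)).trace := by rw [hr, mul_one]
    _ = (M * Mᵀ * Pᵀ * P).trace := by rw [Matrix.trace_mul_comm]
    _ = (M * Mᵀ).trace := by rw [mul_assoc (M * Mᵀ), hp', mul_one]

/-! ### the numbers -/

lemma exp_four {A N : ℕ} (hA : 1 ≤ A) (hN : 10 ^ 8 * A ^ 2 ≤ N) :
    (N : ℝ) ^ 4 ≤ Real.exp (Real.log 2 * (N / (700000 * A))) := by
  have hA' : (1 : ℝ) ≤ A := by exact_mod_cast hA
  have hN' : (10 : ℝ) ^ 8 * A ^ 2 ≤ N := by exact_mod_cast hN
  have hNpos : (0 : ℝ) < N := by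
    have : (0 : ℝ) < 10 ^ 8 * (A : ℝ) ^ 2 := by positivity
    linarith
  set y := Real.sqrt N with hy
  have hy2 : y ^ 2 = N := Real.sq_sqrt hNpos.le
  have hy0 : 0 < y := Real.sqrt_pos.2 hNpos
  have hyA : 10000 * (A : ℝ) ≤ y := by
    apply Real.le_sqrt_of_sq_le
    calc (10000 * (A : ℝ)) ^ 2 = 10 ^ 8 * (A : ℝ) ^ 2 := by ring
      _ ≤ (N : ℝ) := hN'
  have hy4 : (10000 : ℝ) ≤ y := by
    calc (10000 : ℝ) = 10000 * 1 := by ring
      _ ≤ 10000 * (A : ℝ) := by gcongr
      _ ≤ y := hyA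
  have h1 : y / 70 ≤ N / (700000 * A) := by
    rw [div_le_div_iff₀ (by norm_num) (by positivity), ← hy2]
    calc y * (700000 * A) = 70 * (y * (10000 * A)) := by ring
      _ ≤ 70 * (y * y) := by gcongr
      _ = y ^ 2 * 70 := by ring
  have hl2 := Real.log_two_gt_d9
  have hl2' := Real.log_two_lt_d9
  have h2 : Real.log y ≤ 871 / 100 + y / 10000 := by
    have h3 : Real.log y = Real.log 10000 + Real.log (y / 10000) := by
      rw [Real.log_div hy0.ne' (by norm_num)]; ring
    have h4 : Real.log 10000 ≤ 14 * Real.log 2 := by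
      have : (14 : ℝ) * Real.log 2 = Real.log (2 ^ 14) := by rw [Real.log_pow]; norm_num
      rw [this]
      exact Real.log_le_log (by norm_num) (by norm_num)
    have h5 : Real.log (y / 10000) ≤ y / 10000 - 1 := Real.log_le_sub_one_of_pos (by positivity)
    linarith
  have h3 : (N : ℝ) ^ 4 = Real.exp (8 * Real.log y) := by
    rw [← hy2, mul_comm, Real.exp_mul, Real.exp_log hy0]
    rw [← pow_mul]
    exact_mod_cast rfl
  rw [h3]
  apply Real.exp_le_exp.2
  calc 8 * Real.log y ≤ 8 * (871 / 100 + y / 10000) := by gcongr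
    _ ≤ 99 / 10000 * y := by linarith
    _ ≤ Real.log 2 * (y / 70) := by nlinarith
    _ ≤ _ := by
        apply mul_le_mul_of_nonneg_left h1
        linarith

/-- **The lower bound for positive words.** -/
theorem pos_lower {w : List (ℕ × Bool)} (hw : ∀ l ∈ w, Pos l) {s : Bool} {l : List ℕ}
    (hwl : w.map toL = sw s l) (hl : l ≠ []) {A : ℕ} (hA : ∀ a ∈ l, 1 ≤ a ∧ a ≤ A) {N : ℕ}
    (hN : 10 ^ 8 * A ^ 2 ≤ N) :
    2 ^ l.length ≤ dg ((w ++ dual w).map toL) ∧
    2 * (N : ℝ) ^ 3 * Real.exp (Real.log (dg ((w ++ dual w).map toL)) * (N / (200000 * A))) ≤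
      ‖(rep3 N (w ++ dual w)).trace‖ := by
  set k := l.length with hk
  have hk1 : 1 ≤ k := List.length_pos_of_ne_nil hl
  have hA1 : 1 ≤ A := by
    obtain ⟨a, l', rfl⟩ := List.exists_cons_of_ne_nil hl
    have := hA a (by simp)
    omega
  have hW : (w ++ dual w).map toL = sw s (l ++ l.reverse) := by
    rw [List.map_append, toL_dual hw, hwl, sw_dag]
  have hlen : (l ++ l.reverse).length = 2 * k := by
    rw [List.length_append, List.length_reverse]; ring
  have hA2 : ∀ a ∈ l ++ l.reverse, 1 ≤ a ∧ a ≤ A := by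
    intro a ha
    rw [List.mem_append, List.mem_reverse, or_self_iff] at ha
    exact hA a ha
  rw [hW]
  set D := dg (sw s (l ++ l.reverse)) with hD
  have hDk : (2 : ℝ) ^ k ≤ D := KP.dg_ge k s _ hlen hA2
  refine ⟨hDk, ?_⟩
  have hA' : (1 : ℝ) ≤ A := by exact_mod_cast hA1
  have hN' : (10 : ℝ) ^ 8 * A ^ 2 ≤ N := by exact_mod_cast hN
  have hN8 : (10 : ℝ) ^ 8 ≤ N := by nlinarith [one_le_pow₀ hA' (n := 2)]
  have hNpos : (0 : ℝ) < N := by linarith
  have hl2 := Real.log_two_gt_d9
  have hl2' := Real.log_two_lt_d9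
  have hD1 : (2 : ℝ) ≤ D := by
    calc (2 : ℝ) = 2 ^ 1 := by norm_num
      _ ≤ 2 ^ k := pow_le_pow_right₀ (by norm_num) hk1
      _ ≤ D := hDk
  have hDpos : 0 < D := by linarith
  set β := Real.log D with hβ
  have hβ2 : Real.log 2 ≤ β := Real.log_le_log (by norm_num) hD1
  have hβk : (k : ℝ) * Real.log 2 ≤ β := by
    rw [← Real.log_pow]
    exact Real.log_le_log (by positivity) hDk
  -- the dimension of the block
  set x : ℝ := N / (155170 * A) with hx
  have hx1 : 640 ≤ x := by
    rw [hx, le_div_iff₀ (by positivity)]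
    nlinarith
  set n0 := ⌊x⌋₊ with hn0
  have h1 : (n0 : ℝ) ≤ x := Nat.floor_le (by linarith)
  have h2 : x < n0 + 1 := Nat.lt_floor_add_one _
  obtain ⟨n, m, hn1, hn2, hn3⟩ : ∃ n m : ℕ, n ≤ n0 ∧ n0 ≤ n + 1 ∧ N + n = 2 * m + 2 := by
    have hn03 : 3 ≤ n0 := by
      have : (3 : ℝ) ≤ n0 := by linarith
      exact_mod_cast this
    rcases Nat.even_or_odd' (N + n0) with ⟨c, hc | hc⟩
    · exact ⟨n0, c - 1, le_rfl, by omega, by omega⟩
    · exact ⟨n0 - 1, c - 1, by omega, by omega, by omega⟩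
  have hnx : (n : ℝ) ≤ x := by
    have : (n : ℝ) ≤ n0 := by exact_mod_cast hn1
    linarith
  have hnx2 : x - 2 ≤ n := by
    have : (n0 : ℝ) ≤ n + 1 := by exact_mod_cast hn2
    linarith
  have hn600 : (600 : ℝ) ≤ n := by linarith
  have hn1' : 1 ≤ n := by
    have : (1 : ℝ) ≤ n := by linarith
    exact_mod_cast this
  have hnN : (n : ℝ) ≤ N / 155170 := by
    refine hnx.trans ?_
    rw [hx]
    apply div_le_div_of_nonneg_left hNpos.le (by norm_num)
    nlinarith
  have hnN2 : n < N := by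
    have : (n : ℝ) < N := by
      have : (N : ℝ) / 155170 < N := by
        rw [div_lt_iff₀ (by norm_num)]; nlinarith
      linarith
    exact_mod_cast this
  obtain ⟨K, rfl⟩ : ∃ K, n = K + 1 := ⟨n - 1, by omega⟩
  have hm : m < N := by omega
  have hK : N + K = 2 * m + 1 := by omega
  -- the two bounds
  have hpi := Real.pi_lt_d6
  have hpi0 := Real.pi_pos
  have hnt : ‖tN N‖ = Real.pi / N := by
    unfold tN
    rw [Complex.norm_real, Real.norm_eq_abs, abs_of_pos (by positivity)]
  have hlow := KP.ft_lower (n := K + 1) (by omega) hA1 (s := s) hk1 hlen hA2 (t := tN N) (by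
    rw [hnt]
    have h5 : ((K + 1 : ℕ) : ℝ) * (155170 * A) ≤ N := by
      have := hnx
      rw [hx, le_div_iff₀ (by positivity)] at this
      exact this
    have h6 : 49392 * (((K + 1 : ℕ) : ℝ) * (Real.pi / N)) * A
        = (49392 * Real.pi * (((K + 1 : ℕ) : ℝ) * A)) / N := by ring
    rw [h6, div_le_one hNpos]
    have h7 : 0 ≤ ((K + 1 : ℕ) : ℝ) * A := by positivity
    calc 49392 * Real.pi * (((K + 1 : ℕ) : ℝ) * A) ≤ 155170 * (((K + 1 : ℕ) : ℝ) * A) := by
          apply mul_le_mul_of_nonneg_right _ h7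
          linarith
      _ = ((K + 1 : ℕ) : ℝ) * (155170 * A) := by ring
      _ ≤ N := h5)
  have hup := block_le hm hK hw
  rw [hW] at hup
  have hup2 := hlow.trans hup
  rw [← hD, Nat.add_sub_cancel] at hup2
  set n' : ℝ := ((K + 1 : ℕ) : ℝ) with hn'
  have hKn : ((K : ℝ) + 1) = n' := by rw [hn']; push_cast; ring
  rw [hKn] at hup2
  -- the left side
  have hleft : Real.exp (β * (999 / 1000 * n' - 1)) ≤ D ^ K * Real.exp (-(k * n' / 1500)) := by
    have e1 : D ^ K = Real.exp (β * K) := by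
      rw [hβ, Real.exp_mul, Real.exp_log hDpos, Real.rpow_natCast]
    rw [e1, ← Real.exp_add]
    apply Real.exp_le_exp.2
    have h5 : (k : ℝ) / 1500 ≤ β / 1000 := by
      have hk0 : (0 : ℝ) ≤ k := by positivity
      nlinarith
    have h6 : (k : ℝ) * n' / 1500 ≤ β / 1000 * n' := by
      calc (k : ℝ) * n' / 1500 = k / 1500 * n' := by ring
        _ ≤ β / 1000 * n' := by
          apply mul_le_mul_of_nonneg_right h5
          positivity
    have h7 : (K : ℝ) = n' - 1 := by linarith
    rw [h7]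
    linarith
  set E := Real.exp (β * (N / (200000 * A))) with hE
  have hbig : E * ((N : ℝ) ^ 4 / 8) ≤ Real.exp (β * (999 / 1000 * n' - 1)) := by
    have h5 := exp_four hA1 hN
    have e1 : Real.exp (β * (N / (200000 * A)) + Real.log 2 * (N / (700000 * A) - 3))
        = E * (Real.exp (Real.log 2 * (N / (700000 * A))) / 8) := by
      rw [Real.exp_add, ← hE, mul_sub, Real.exp_sub]
      congr 2
      have e8 : Real.log 2 * 3 = Real.log 8 := by
        rw [show (8 : ℝ) = 2 ^ 3 by norm_num, Real.log_pow]; push_cast; ring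
      rw [e8, Real.exp_log (by norm_num)]
    calc E * ((N : ℝ) ^ 4 / 8) ≤ E * (Real.exp (Real.log 2 * (N / (700000 * A))) / 8) := by
          gcongr
      _ = Real.exp (β * (N / (200000 * A)) + Real.log 2 * (N / (700000 * A) - 3)) := e1.symm
      _ ≤ Real.exp (β * (N / (200000 * A)) + β * (N / (700000 * A) - 3)) := by
          apply Real.exp_le_exp.2
          have h6 : (0 : ℝ) ≤ N / (700000 * A) - 3 := by
            rw [sub_nonneg, le_div_iff₀ (by positivity)]
            nlinarith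
          have := mul_le_mul_of_nonneg_right hβ2 h6
          linarith
      _ ≤ _ := by
          apply Real.exp_le_exp.2
          rw [← mul_add]
          apply mul_le_mul_of_nonneg_left _ (by linarith)
          have e2 : (N : ℝ) / (200000 * A) = x * (155170 / 200000) := by
            rw [hx]; field_simp
          have e3 : (N : ℝ) / (700000 * A) = x * (155170 / 700000) := by
            rw [hx]; field_simp
          rw [e2, e3]
          linarith
  have hE1 : 1 ≤ E := Real.one_le_exp (by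
    apply mul_nonneg (by linarith)
    positivity)
  have hfin := (hbig.trans hleft).trans hup2
  set R := (rep3 N (w ++ dual w)).trace.re with hR
  have hRn : R ≤ ‖(rep3 N (w ++ dual w)).trace‖ :=
    (le_abs_self _).trans (Complex.abs_re_le_norm _)
  refine le_trans ?_ hRn
  have hn'0 : 0 < n' := by linarith
  have hn'N : n' ≤ N / 155170 := hnN
  by_contra hcon
  rw [not_le] at hcon
  have hN3 : (1 : ℝ) ≤ (N : ℝ) ^ 3 := one_le_pow₀ (by linarith)
  have h8 : n' * (R + (N : ℝ) ^ 3 + 2) ≤ n' * (5 * (N : ℝ) ^ 3 * E) := by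
    apply mul_le_mul_of_nonneg_left _ hn'0.le
    nlinarith
  have h9 : n' * (5 * (N : ℝ) ^ 3 * E) ≤ N / 155170 * (5 * (N : ℝ) ^ 3 * E) := by
    apply mul_le_mul_of_nonneg_right hn'N
    positivity
  have h10 : (N : ℝ) / 155170 * (5 * (N : ℝ) ^ 3 * E) = E * ((N : ℝ) ^ 4 / 31034) := by ring
  have h11 : E * ((N : ℝ) ^ 4 / 31034) < E * ((N : ℝ) ^ 4 / 8) := by
    have : 0 < E * (N : ℝ) ^ 4 := by positivity
    nlinarith
  linarith

end Pool.Agent.H759.KB
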