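import Pool.Agent.H759.KB.Final
import Pool.Graph.R_seed8.W715.VC.Limit

/-!
The traces of the palindromic braids are real, and positive when they are large.
-/

set_option autoImplicit false

namespace Pool.Agent.H759.KB

open Matrix Finset Filter Topology Pool.Agent.H550R3.Jones Pool.Agent.W715.VC Pool.Agent.V11115.VC

variable {N : ℕ}

lemma hadj_trace (A : M3 N) : (hadj A).trace = (starRingEnd ℂ) A.trace := by
  unfold Matrix.trace
  rw [map_sum, ← Equiv.sum_comp (rvE N)]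
  exact sum_congr rfl fun p _ => rfl

lemma hadj_pow (A : M3 N) (n : ℕ) : hadj (A ^ n) = hadj A ^ n := by
  induction n with
  | zero => rw [pow_zero, pow_zero, hadj_one]
  | succ n ih => rw [pow_succ, hadj_mul, ih, pow_succ']

lemma hadj_pal (hN : 0 < N) {u : List (ℕ × Bool)} (hu : ∀ l ∈ u, l.1 < 2) :
    hadj (rep3 N (u ++ dual u)) = rep3 N (u ++ dual u) := by
  rw [rep3_append, hadj_mul, ← hadj_rep3 hN hu, hadj_hadj]

/-- the traces of palindromic braids are real -/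
lemma trace_real (hN : 0 < N) {u : List (ℕ × Bool)} (hu : ∀ l ∈ u, l.1 < 2) (n : ℕ) :
    (rep3 N (wpow (u ++ dual u) n)).trace =
      (((rep3 N (wpow (u ++ dual u) n)).trace.re : ℝ) : ℂ) := by
  have h : (starRingEnd ℂ) (rep3 N (wpow (u ++ dual u) n)).trace =
      (rep3 N (wpow (u ++ dual u) n)).trace := by
    rw [← hadj_trace, rep3_wpow, hadj_pow, hadj_pal hN hu]
  exact (Complex.conj_eq_iff_re.1 h).symm

/-- the traces of palindromic braids are not very negative -/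
lemma trace_re_ge (hN : 0 < N) {u : List (ℕ × Bool)} (hu : ∀ l ∈ u, l.1 < 2) {n : ℕ}
    (hn : n ≠ 0) : -(N : ℝ) ^ 3 ≤ (rep3 N (wpow (u ++ dual u) n)).trace.re := by
  rw [rep3_wpow]
  set B := rep3 N (u ++ dual u) with hB
  rw [trace_pow B hn]
  have hcard : B.charpoly.roots.card = N ^ 3 := by
    rw [card_roots' B]
    simp only [I3, Fintype.card_prod, Fintype.card_fin]
    ring
  have h := re_sum_ge B.charpoly.roots (fun a ha => by
    obtain ⟨m, hm⟩ := eig_of_root (good_rep3 _) ha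
    exact eig_main hN hu hm) n
  rw [hcard] at h
  push_cast at h
  exact h

/-- a large trace is positive -/
lemma trace_pos (hN : 0 < N) {u : List (ℕ × Bool)} (hu : ∀ l ∈ u, l.1 < 2) {n : ℕ}
    (hn : n ≠ 0) (h : (N : ℝ) ^ 3 < ‖(rep3 N (wpow (u ++ dual u) n)).trace‖) :
    (rep3 N (wpow (u ++ dual u) n)).trace =
      ((‖(rep3 N (wpow (u ++ dual u) n)).trace‖ : ℝ) : ℂ) := by
  have h1 := trace_real hN hu n
  have h2 := trace_re_ge hN hu hn
  set z := (rep3 N (wpow (u ++ dual u) n)).trace with hz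
  have h3 : ‖z‖ = |z.re| := by
    conv_lhs => rw [h1]
    rw [Complex.norm_real, Real.norm_eq_abs]
  have h4 : 0 < z.re := by
    by_contra h0
    rw [not_lt] at h0
    rw [h3, abs_of_nonpos h0] at h
    linarith
  rw [h3, abs_of_pos h4]
  exact h1

/-- the phase of the invariant -/
lemma rt_phase (hN : 0 < N) : rt N ^ (-3 * ((N : ℤ) - 1)) =
    -Complex.exp (3 * Real.pi * Complex.I / N) := by
  have h0 := rt_ne N
  have e : (-3 * ((N : ℤ) - 1) : ℤ) = (N : ℤ) * (-3) + 3 := by ring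
  rw [e, zpow_add₀ h0, _root_.zpow_mul, rt_zpow_N hN]
  have e1 : ((-1 : ℂ)) ^ (-3 : ℤ) = -1 := by
    rw [_root_.zpow_neg]
    norm_num
  have e2 : rt N ^ (3 : ℤ) = Complex.exp (3 * Real.pi * Complex.I / N) := by
    unfold rt
    rw [← Complex.exp_int_mul]
    congr 1
    push_cast
    ring
  rw [e1, e2]
  ring

/-! ### sequences with the phase `-exp (3 π i / N)` -/

/-- the numbers have the phase `-exp (3 π i / N)` from `M` on -/
def PhSeq (J : ℕ → ℂ) (M : ℕ) : Prop := ∀ N : ℕ, M ≤ N →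
  J N ≠ 0 ∧ J N = -Complex.exp (3 * Real.pi * Complex.I / N) * ((‖J N‖ : ℝ) : ℂ)

/-- the angle of the ratio -/
noncomputable def ang (d N : ℕ) : ℝ := -(3 * Real.pi * d / (N * (N + d)))

lemma ang_lim (d : ℕ) : Tendsto (fun N : ℕ => ang d N) atTop (𝓝 0) := by
  have h4 : Tendsto (fun N : ℕ => ((N : ℝ) * (N + d))) atTop atTop :=
    tendsto_natCast_atTop_atTop.atTop_mul_atTop₀
      (tendsto_atTop_add_const_right _ _ tendsto_natCast_atTop_atTop)
  have h5 := (tendsto_const_nhds (x := (3 * Real.pi * d))).div_atTop h4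
  simpa [ang] using h5.neg

lemma PhSeq.ratio {J : ℕ → ℂ} {M : ℕ} (h : PhSeq J M) {N : ℕ} (hN : M ≤ N) (hN0 : 0 < N) (d : ℕ) :
    J (N + d) / J N = ((‖J (N + d)‖ / ‖J N‖ : ℝ) : ℂ) *
      Complex.exp (((ang d N : ℝ) : ℂ) * Complex.I) := by
  obtain ⟨a1, a2⟩ := h N hN
  obtain ⟨b1, b2⟩ := h (N + d) (by omega)
  have hNc : (N : ℂ) ≠ 0 := by exact_mod_cast hN0.ne'
  have hNd : ((N : ℂ) + d) ≠ 0 := by exact_mod_cast (by omega : N + d ≠ 0)
  have n1 : ((‖J N‖ : ℝ) : ℂ) ≠ 0 := by exact_mod_cast (norm_pos_iff.2 a1).ne'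
  have e4 : Complex.exp (3 * Real.pi * Complex.I / ((N + d : ℕ) : ℂ)) =
      Complex.exp (3 * Real.pi * Complex.I / N) *
        Complex.exp (((ang d N : ℝ) : ℂ) * Complex.I) := by
    rw [← Complex.exp_add]
    congr 1
    unfold ang
    push_cast
    field_simp
    ring
  have hE : Complex.exp (3 * Real.pi * Complex.I / N) ≠ 0 := Complex.exp_ne_zero _
  rw [e4] at b2
  rw [div_eq_iff a1]
  generalize Complex.exp (3 * Real.pi * Complex.I / N) = E at *
  generalize Complex.exp (((ang d N : ℝ) : ℂ) * Complex.I) = F at *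
  generalize ‖J (N + d)‖ = a at *
  generalize ‖J N‖ = b at *
  rw [a2, b2]
  push_cast
  field_simp

lemma PhSeq.ratio_ev {J : ℕ → ℂ} {M : ℕ} (h : PhSeq J M) (d : ℕ) : ∀ᶠ N : ℕ in atTop,
    0 < ‖J (N + d)‖ / ‖J N‖ ∧ J (N + d) / J N = ((‖J (N + d)‖ / ‖J N‖ : ℝ) : ℂ) *
      Complex.exp (((ang d N : ℝ) : ℂ) * Complex.I) := by
  filter_upwards [eventually_ge_atTop M, eventually_gt_atTop 0] with N h1 h2
  exact ⟨div_pos (norm_pos_iff.2 (h (N + d) (by omega)).1) (norm_pos_iff.2 (h N h1).1),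
    h.ratio h1 h2 d⟩

lemma exp_ang_lim (d : ℕ) : Tendsto (fun N : ℕ => Complex.exp (((ang d N : ℝ) : ℂ) * Complex.I))
    atTop (𝓝 1) := by
  have h6 : Tendsto (fun N : ℕ => ((ang d N : ℝ) : ℂ) * Complex.I) atTop
      (𝓝 (((0 : ℝ) : ℂ) * Complex.I)) :=
    ((Complex.continuous_ofReal.tendsto _).comp (ang_lim d)).mul_const _
  have h7 := (Complex.continuous_exp.tendsto _).comp h6
  rw [Complex.ofReal_zero, zero_mul, Complex.exp_zero] at h7
  exact h7

lemma PhSeq.unit {J : ℕ → ℂ} {M : ℕ} (h : PhSeq J M) (d : ℕ) :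
    Tendsto (fun N : ℕ => J (N + d) / J N / ((‖J (N + d)‖ / ‖J N‖ : ℝ) : ℂ)) atTop (𝓝 1) := by
  refine (exp_ang_lim d).congr' ?_
  filter_upwards [h.ratio_ev d] with N ⟨h1, h2⟩
  rw [h2]
  have hne : ((‖J (N + d)‖ / ‖J N‖ : ℝ) : ℂ) ≠ 0 := by exact_mod_cast h1.ne'
  exact (mul_div_cancel_left₀ _ hne).symm

lemma exp_split (V C : ℝ) : Complex.exp ((C + Complex.I * V) / (2 * Real.pi * Complex.I)) =
    ((Real.exp (V / (2 * Real.pi)) : ℝ) : ℂ) * Complex.exp (((-(C / (2 * Real.pi)) : ℝ) : ℂ) *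
      Complex.I) := by
  rw [Complex.ofReal_exp, ← Complex.exp_add]
  congr 1
  have hpi : (Real.pi : ℂ) ≠ 0 := by exact_mod_cast Real.pi_ne_zero
  push_cast
  field_simp
  ring_nf
  rw [Complex.I_sq]
  ring

/-- the phase part for the ratios of successive invariants -/
theorem phasePart {J : ℕ → ℂ} {M : ℕ} (h : PhSeq J M) :
    (∀ᶠ N : ℕ in atTop, J (N + 1) / J N = ((‖J (N + 1)‖ / ‖J N‖ : ℝ) : ℂ) *
      Complex.exp (((-(3 * Real.pi / (N * (N + 1))) : ℝ) : ℂ) * Complex.I)) ∧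
    Tendsto (fun N : ℕ => J (N + 1) / J N / ((‖J (N + 1)‖ / ‖J N‖ : ℝ) : ℂ)) atTop (𝓝 1) ∧
    ∀ V C : ℝ, Tendsto (fun N : ℕ => J (N + 1) / J N) atTop
        (𝓝 (Complex.exp ((C + Complex.I * V) / (2 * Real.pi * Complex.I)))) ↔
      Tendsto (fun N : ℕ => ‖J (N + 1)‖ / ‖J N‖) atTop (𝓝 (Real.exp (V / (2 * Real.pi)))) ∧
        ∃ q : ℤ, C = q * (4 * Real.pi ^ 2) := by
  have hpi := Real.pi_pos
  refine ⟨?_, h.unit 1, fun V C => ⟨fun hV => ?_, fun ⟨hV, q, hq⟩ => ?_⟩⟩
  · filter_upwards [h.ratio_ev 1] with N ⟨_, h2⟩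
    rw [h2]
    unfold ang
    norm_num
  · rw [exp_split] at hV
    have h1 : Tendsto (fun N : ℕ => ‖J (N + 1)‖ / ‖J N‖) atTop
        (𝓝 (Real.exp (V / (2 * Real.pi)))) := by
      have h2 := hV.norm
      rw [norm_mul, Complex.norm_exp_ofReal_mul_I, Complex.norm_real, Real.norm_eq_abs,
        abs_of_pos (Real.exp_pos _), mul_one] at h2
      refine h2.congr fun N => ?_
      rw [norm_div]
    refine ⟨h1, ?_⟩
    have h2 : Tendsto (fun N : ℕ => J (N + 1) / J N / ((‖J (N + 1)‖ / ‖J N‖ : ℝ) : ℂ)) atTop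
        (𝓝 (Complex.exp (((-(C / (2 * Real.pi)) : ℝ) : ℂ) * Complex.I))) := by
      have h3 := hV.div ((Complex.continuous_ofReal.tendsto _).comp h1) (by
        exact_mod_cast (Real.exp_pos _).ne')
      have h4 : ((Real.exp (V / (2 * Real.pi)) : ℝ) : ℂ) ≠ 0 := by
        exact_mod_cast (Real.exp_pos _).ne'
      rw [mul_div_cancel_left₀ _ h4] at h3
      exact h3
    have h3 := tendsto_nhds_unique h2 (h.unit 1)
    rw [Complex.exp_eq_one_iff] at h3
    obtain ⟨q, hq⟩ := h3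
    refine ⟨-q, ?_⟩
    have h4 : ((-(C / (2 * Real.pi)) : ℝ) : ℂ) = ((q * (2 * Real.pi) : ℝ) : ℂ) := by
      have h5 := mul_right_cancel₀ Complex.I_ne_zero (b := Complex.I)
        (a := ((-(C / (2 * Real.pi)) : ℝ) : ℂ)) (c := ((q * (2 * Real.pi) : ℝ) : ℂ)) (by
        rw [hq]; push_cast; ring)
      exact h5
    have h5 : -(C / (2 * Real.pi)) = q * (2 * Real.pi) := by exact_mod_cast h4
    have h6 : C / (2 * Real.pi) = -(q * (2 * Real.pi)) := by linarith
    rw [div_eq_iff (by positivity)] at h6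
    rw [h6]
    push_cast
    ring
  · rw [exp_split]
    have e1 : Complex.exp (((-(C / (2 * Real.pi)) : ℝ) : ℂ) * Complex.I) = 1 := by
      rw [Complex.exp_eq_one_iff]
      refine ⟨-q, ?_⟩
      have : -(C / (2 * Real.pi)) = -q * (2 * Real.pi) := by
        rw [hq]
        field_simp
        ring
      rw [this]
      push_cast
      ring
    rw [e1, mul_one]
    have h1 := ((Complex.continuous_ofReal.tendsto _).comp hV).mul (h.unit 1)
    rw [mul_one] at h1
    refine h1.congr' ?_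
    filter_upwards [h.ratio_ev 1] with N ⟨h2, _⟩
    have hne : ((‖J (N + 1)‖ / ‖J N‖ : ℝ) : ℂ) ≠ 0 := by exact_mod_cast h2.ne'
    show ((‖J (N + 1)‖ / ‖J N‖ : ℝ) : ℂ) * (J (N + 1) / J N / ((‖J (N + 1)‖ / ‖J N‖ : ℝ) : ℂ)) = _
    rw [mul_div_cancel₀ _ hne]

lemma log_real_mul_exp {r θ : ℝ} (hr : 0 < r) (h1 : -Real.pi < θ) (h2 : θ ≤ Real.pi) :
    Complex.log ((r : ℂ) * Complex.exp ((θ : ℂ) * Complex.I)) = ((Real.log r : ℝ) : ℂ) +
      (θ : ℂ) * Complex.I := by
  rw [Complex.log_ofReal_mul hr (Complex.exp_ne_zero _), Complex.log_exp]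
  · simpa using h1
  · simpa using h2

lemma PhSeq.log_ev {J : ℕ → ℂ} {M : ℕ} (h : PhSeq J M) (d : ℕ) : ∀ᶠ N : ℕ in atTop,
    Complex.log (J (N + d) / J N) = ((Real.log (‖J (N + d)‖ / ‖J N‖) : ℝ) : ℂ) +
      ((ang d N : ℝ) : ℂ) * Complex.I := by
  have hpi := Real.pi_pos
  filter_upwards [h.ratio_ev d, (ang_lim d).eventually (Ioo_mem_nhds (neg_neg_of_pos hpi) hpi)]
    with N ⟨h1, h2⟩ h3
  rw [h2, log_real_mul_exp h1 h3.1 h3.2.le]

/-- the ratios with step two -/
theorem ratioPart {J : ℕ → ℂ} {M : ℕ} (h : PhSeq J M) (F : Filter ℕ) [F.NeBot] (hF : F ≤ atTop) :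
    Tendsto (fun N : ℕ => (Real.pi * Complex.log (J (N + 2) / J N)).im) atTop (𝓝 0) ∧
    ∀ V C : ℝ, (∃ k : ℕ → ℤ, Tendsto (fun N : ℕ => Real.pi * Complex.log (J (N + 2) / J N) +
        k N * (Real.pi ^ 2 * Complex.I)) F (𝓝 (V + C * Complex.I))) ↔
      Tendsto (fun N : ℕ => Real.pi * Real.log (‖J (N + 2)‖ / ‖J N‖)) F (𝓝 V) ∧
        ∃ q : ℤ, C = q * Real.pi ^ 2 := by
  have hpi := Real.pi_pos
  have hlog := h.log_ev 2
  have him : ∀ᶠ N : ℕ in atTop, (Real.pi * Complex.log (J (N + 2) / J N)).im =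
      Real.pi * ang 2 N := by
    filter_upwards [hlog] with N hN
    rw [hN]
    simp
  have hre : ∀ᶠ N : ℕ in atTop, (Real.pi * Complex.log (J (N + 2) / J N)).re =
      Real.pi * Real.log (‖J (N + 2)‖ / ‖J N‖) := by
    filter_upwards [hlog] with N hN
    rw [hN]
    simp
  have hang : Tendsto (fun N : ℕ => Real.pi * ang 2 N) atTop (𝓝 0) := by
    have := (ang_lim 2).const_mul Real.pi
    rwa [mul_zero] at this
  refine ⟨hang.congr' (him.mono fun N hN => hN.symm), fun V C => ⟨fun ⟨k, hk⟩ => ?_,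
    fun ⟨hV, q, hq⟩ => ⟨fun _ => q, ?_⟩⟩⟩
  · have h1 := (Complex.continuous_re.tendsto _).comp hk
    have h2 := (Complex.continuous_im.tendsto _).comp hk
    have e1 : (((V : ℂ) + C * Complex.I)).re = V := by simp
    have e2 : (((V : ℂ) + C * Complex.I)).im = C := by simp
    rw [e1] at h1
    rw [e2] at h2
    refine ⟨h1.congr' ?_, ?_⟩
    · filter_upwards [hre.filter_mono hF] with N hN
      rw [Function.comp_apply, Complex.add_re, hN]
      have : ((k N : ℂ) * (Real.pi ^ 2 * Complex.I)).re = 0 := by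
        have e : ((k N : ℂ) * (Real.pi ^ 2 * Complex.I)) =
            (((k N : ℝ) * Real.pi ^ 2 : ℝ) : ℂ) * Complex.I := by push_cast; ring
        rw [e, Complex.re_ofReal_mul, Complex.I_re, mul_zero]
      rw [this, add_zero]
    · have h3 : Tendsto (fun N : ℕ => (k N : ℝ)) F (𝓝 (C / Real.pi ^ 2)) := by
        have h4 := ((h2.sub (hang.mono_left hF)).div_const (Real.pi ^ 2))
        rw [sub_zero] at h4
        refine h4.congr' ?_
        filter_upwards [him.filter_mono hF] with N hN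
        rw [Function.comp_apply, Complex.add_im, hN]
        have : ((k N : ℂ) * (Real.pi ^ 2 * Complex.I)).im = k N * Real.pi ^ 2 := by
          have e : ((k N : ℂ) * (Real.pi ^ 2 * Complex.I)) =
              (((k N : ℝ) * Real.pi ^ 2 : ℝ) : ℂ) * Complex.I := by push_cast; ring
          rw [e, Complex.im_ofReal_mul, Complex.I_im, mul_one]
        rw [this]
        field_simp
        ring
      have h5 : C / Real.pi ^ 2 ∈ Set.range ((↑) : ℤ → ℝ) :=
        Int.isClosedEmbedding_coe_real.isClosed_range.mem_of_tendsto h3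
          (Eventually.of_forall fun N => ⟨k N, rfl⟩)
      obtain ⟨q, hq⟩ := h5
      refine ⟨q, ?_⟩
      rw [hq]
      field_simp
  · have h1 : Tendsto (fun N : ℕ => ((Real.pi * Real.log (‖J (N + 2)‖ / ‖J N‖) : ℝ) : ℂ) +
        ((Real.pi * ang 2 N : ℝ) : ℂ) * Complex.I + q * (Real.pi ^ 2 * Complex.I)) F
        (𝓝 ((V : ℂ) + ((0 : ℝ) : ℂ) * Complex.I + q * (Real.pi ^ 2 * Complex.I))) :=
      (((Complex.continuous_ofReal.tendsto _).comp hV).add
        (((Complex.continuous_ofReal.tendsto _).comp (hang.mono_left hF)).mul_const _)).add_const _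
    have e : (V : ℂ) + ((0 : ℝ) : ℂ) * Complex.I + q * (Real.pi ^ 2 * Complex.I) =
        V + C * Complex.I := by
      rw [hq]
      push_cast
      ring
    rw [e] at h1
    refine h1.congr' ?_
    filter_upwards [hlog.filter_mono hF] with N hN
    rw [hN]
    push_cast
    ring

/-- the branch of the logarithm -/
noncomputable def lgN (J : ℕ → ℂ) (N : ℕ) : ℂ := ((Real.log ‖J N‖ : ℝ) : ℂ) +
  ((3 * Real.pi / N - Real.pi : ℝ) : ℂ) * Complex.I

/-- the logarithms -/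
theorem logPart {J : ℕ → ℂ} {M : ℕ} (h : PhSeq J M) (F : Filter ℕ) [F.NeBot] (hF : F ≤ atTop) :
    (∀ᶠ N : ℕ in atTop, Complex.exp (lgN J N) = J N) ∧
    (∀ᶠ N : ℕ in atTop, lgN J (N + 1) - lgN J N = Complex.log (J (N + 1) / J N)) ∧
    (∀ᶠ N : ℕ in atTop, lgN J (N + 2) - lgN J N = Complex.log (J (N + 2) / J N)) ∧
    Tendsto (fun N : ℕ => (2 * Real.pi / N * lgN J N).im) atTop (𝓝 0) ∧
    ∀ V C : ℝ, Tendsto (fun N : ℕ => 2 * Real.pi / N * lgN J N) F (𝓝 (V + Complex.I * C)) ↔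
      Tendsto (fun N : ℕ => 2 * Real.pi / N * Real.log ‖J N‖) F (𝓝 V) ∧ C = 0 := by
  have hpi := Real.pi_pos
  have hstep : ∀ d : ℕ, ∀ᶠ N : ℕ in atTop, lgN J (N + d) - lgN J N =
      Complex.log (J (N + d) / J N) := by
    intro d
    filter_upwards [h.log_ev d, eventually_ge_atTop M, eventually_gt_atTop 0] with N h1 h2 h3
    rw [h1, Real.log_div (norm_pos_iff.2 (h (N + d) (by omega)).1).ne'
      (norm_pos_iff.2 (h N h2).1).ne']
    unfold lgN ang
    have hNc : (N : ℂ) ≠ 0 := by exact_mod_cast h3.ne'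
    have hNd : ((N : ℂ) + d) ≠ 0 := by exact_mod_cast (by omega : N + d ≠ 0)
    push_cast
    field_simp
    ring
  have him : ∀ N : ℕ, (2 * Real.pi / N * lgN J N).im = 2 * Real.pi / N *
      (3 * Real.pi / N - Real.pi) := by
    intro N
    have e : (2 * Real.pi / N * lgN J N : ℂ) = ((2 * Real.pi / N * Real.log ‖J N‖ : ℝ) : ℂ) +
        ((2 * Real.pi / N * (3 * Real.pi / N - Real.pi) : ℝ) : ℂ) * Complex.I := by
      unfold lgN
      push_cast
      ring
    rw [e]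
    simp
  have hre : ∀ N : ℕ, (2 * Real.pi / N * lgN J N).re = 2 * Real.pi / N * Real.log ‖J N‖ := by
    intro N
    have e : (2 * Real.pi / N * lgN J N : ℂ) = ((2 * Real.pi / N * Real.log ‖J N‖ : ℝ) : ℂ) +
        ((2 * Real.pi / N * (3 * Real.pi / N - Real.pi) : ℝ) : ℂ) * Complex.I := by
      unfold lgN
      push_cast
      ring
    rw [e]
    simp
  have hlim : Tendsto (fun N : ℕ => 2 * Real.pi / N * (3 * Real.pi / N - Real.pi)) atTop
      (𝓝 0) := by
    have h1 : Tendsto (fun N : ℕ => 1 / (N : ℝ)) atTop (𝓝 0) :=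
      tendsto_one_div_atTop_nhds_zero_nat
    have h2 : Tendsto (fun N : ℕ => 2 * Real.pi * (1 / (N : ℝ)) *
        (3 * Real.pi * (1 / (N : ℝ)) - Real.pi)) atTop
        (𝓝 (2 * Real.pi * 0 * (3 * Real.pi * 0 - Real.pi))) :=
      (h1.const_mul _).mul ((h1.const_mul _).sub_const _)
    rw [mul_zero, zero_mul] at h2
    refine h2.congr fun N => ?_
    ring
  have himt : Tendsto (fun N : ℕ => (2 * Real.pi / N * lgN J N).im) atTop (𝓝 0) :=
    hlim.congr fun N => (him N).symm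
  refine ⟨?_, hstep 1, hstep 2, himt, fun V C => ⟨fun hV => ?_, fun ⟨hV, hC⟩ => ?_⟩⟩
  · filter_upwards [eventually_ge_atTop M, eventually_gt_atTop 0] with N h1 h2
    obtain ⟨a1, a2⟩ := h N h1
    have h3 : 0 < ‖J N‖ := norm_pos_iff.2 a1
    have e : lgN J N = ((Real.log ‖J N‖ : ℝ) : ℂ) + (3 * Real.pi * Complex.I / N +
        -(Real.pi * Complex.I)) := by
      unfold lgN
      push_cast
      ring
    rw [e, Complex.exp_add, Complex.exp_add, Complex.exp_neg, Complex.exp_pi_mul_I,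
      ← Complex.ofReal_exp, Real.exp_log h3]
    conv_rhs => rw [a2]
    ring
  · have h1 := (Complex.continuous_re.tendsto _).comp hV
    have h2 := (Complex.continuous_im.tendsto _).comp hV
    have e1 : (((V : ℂ) + Complex.I * C)).re = V := by simp
    have e2 : (((V : ℂ) + Complex.I * C)).im = C := by simp
    rw [e1] at h1
    rw [e2] at h2
    exact ⟨h1.congr fun N => hre N, tendsto_nhds_unique h2 (himt.mono_left hF)⟩
  · subst hC
    have h1 : Tendsto (fun N : ℕ => ((2 * Real.pi / N * Real.log ‖J N‖ : ℝ) : ℂ) +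
        Complex.I * ((2 * Real.pi / N * (3 * Real.pi / N - Real.pi) : ℝ) : ℂ)) F
        (𝓝 ((V : ℂ) + Complex.I * ((0 : ℝ) : ℂ))) :=
      ((Complex.continuous_ofReal.tendsto _).comp hV).add
        (((Complex.continuous_ofReal.tendsto _).comp (hlim.mono_left hF)).const_mul _)
    refine h1.congr fun N => ?_
    unfold lgN
    push_cast
    ring

end Pool.Agent.H759.KB
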