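import Pool.Agent.H759.KB.Final
import Pool.Agent.H759.QP.Fin
import Pool.Graph.R_pool_sql_team_seeded_843ab51a.H239.RF.Cost

/-!
The upper bound of the growth, and the volume, for all palindromic braids with axis.
-/

set_option autoImplicit false

namespace Pool.Agent.H759.KB

open Finset Filter
open Pool.Agent.R807.IN (hinges hV chg)
open GapVol (lob)
open scoped Real Topology

/-! ### Words of truth values -/

/-- the alternating word of truth values with the given exponents -/
def bws : Bool → List ℕ → List Bool
  | _, [] => []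
  | s, a :: l => List.replicate a s ++ bws (!s) l

lemma chg_block' (a : ℕ) (c : Bool) (v : List Bool) :
    chg (List.replicate (a + 1) c ++ (!c) :: v) = 1 + chg ((!c) :: v) := by
  induction a with
  | zero =>
    change (if c = !c then 0 else 1) + chg ((!c) :: v) = _
    cases c <;> simp
  | succ a ih =>
    change (if c = c then 0 else 1) + chg (List.replicate (a + 1) c ++ (!c) :: v) = _
    rw [if_pos rfl, ih, Nat.zero_add]

lemma bws_head {s : Bool} {a : ℕ} {l : List ℕ} (ha : 1 ≤ a) :
    ∃ v, bws s (a :: l) = s :: v := by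
  obtain ⟨a, rfl⟩ : ∃ j, a = j + 1 := ⟨a - 1, by omega⟩
  exact ⟨List.replicate a s ++ bws (!s) l, by simp [bws, List.replicate_succ]⟩

lemma bws_chg {l : List ℕ} (h : ∀ a ∈ l, 1 ≤ a) (hl : l ≠ []) (s : Bool) :
    chg (bws s l) + 1 = l.length := by
  induction l generalizing s with
  | nil => exact absurd rfl hl
  | cons a l ih =>
    have ha : 1 ≤ a := h a (by simp)
    match l, ih, h with
    | [], _, _ =>
      have : bws s [a] = List.replicate a s := by simp [bws]
      rw [this, Pool.Agent.K4H4.SY.V3.chg_rep]
      rfl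
    | b :: l, ih, h =>
      have hb : 1 ≤ b := h b (by simp)
      have h1 := ih (fun x hx => h x (List.mem_cons_of_mem _ hx)) (by simp) (!s)
      obtain ⟨v, hv⟩ := bws_head (s := !s) (l := l) hb
      have e : bws s (a :: b :: l) = List.replicate a s ++ bws (!s) (b :: l) := rfl
      rw [hv] at e h1
      obtain ⟨a, rfl⟩ : ∃ j, a = j + 1 := ⟨a - 1, by omega⟩
      rw [e, chg_block', List.length_cons]
      omega

/-- the last letter -/
lemma bws_last {l : List ℕ} (h : ∀ a ∈ l, 1 ≤ a) {k : ℕ} (hk : l.length = 2 * (k + 1)) (s : Bool) :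
    ∃ v, bws s l = v ++ [!s] := by
  induction k generalizing l with
  | zero =>
    match l, hk, h with
    | [a, b], _, h =>
      obtain ⟨b', hb'⟩ : ∃ j, b = j + 1 := ⟨b - 1, by have := h b (by simp); omega⟩
      subst hb'
      refine ⟨List.replicate a s ++ List.replicate b' (!s), ?_⟩
      have : bws s [a, b' + 1] = List.replicate a s ++ List.replicate (b' + 1) (!s) := by
        simp [bws]
      rw [this, List.replicate_succ', List.append_assoc]
  | succ k ih =>
    match l, hk, h with
    | a :: b :: l, hk, h =>
      obtain ⟨v, hv⟩ := ih (l := l) (fun x hx => h x (by simp [hx])) (by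
        simp only [List.length_cons] at hk
        omega)
      refine ⟨List.replicate a s ++ (List.replicate b (!s) ++ v), ?_⟩
      have : bws s (a :: b :: l) =
          List.replicate a s ++ (List.replicate b (!s) ++ bws (!(!s)) l) := rfl
      rw [this, Bool.not_not, hv]
      simp only [List.append_assoc]

lemma bws_hinges {l : List ℕ} (h : ∀ a ∈ l, 1 ≤ a) {k : ℕ} (hk : l.length = 2 * (k + 1))
    (s : Bool) : hinges (bws s l) = l.length := by
  have hl : l ≠ [] := by
    rintro rfl
    simp at hk
  have h1 := bws_chg h hl s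
  apply le_antisymm
  · rw [← h1]
    exact Pool.Agent.K4H4.SY.V3.hinges_le _
  · rw [← h1]
    obtain ⟨v, hv⟩ := bws_last h hk s
    obtain ⟨a, l', rfl⟩ := List.exists_cons_of_ne_nil hl
    obtain ⟨w, hw⟩ := bws_head (s := s) (l := l') (h a (by simp))
    have h3 : (bws s (a :: l')).getD 0 false = s := by rw [hw]; rfl
    have h4 : (bws s (a :: l')).getD ((bws s (a :: l')).length - 1) false = !s := by
      rw [hv]
      simp
    refine Pool.Agent.K4H4.SY.hinges_ge _ ?_ ?_
    · rw [hw]
      simp
    · rw [h3, h4]
      cases s <;> simp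

/-- the volume is comparable with the number of syllables -/
theorem bws_vol {l : List ℕ} (h : ∀ a ∈ l, 1 ≤ a) {k : ℕ} (hk : l.length = 2 * (k + 1))
    (s : Bool) : 4 * (3 * lob (π / 3)) * (k + 1 : ℕ) ≤ hV (bws s l) ∧
      hV (bws s l) ≤ (4 * (3 * lob (π / 3)) + 20) * (k + 1 : ℕ) := by
  have h1 := bws_hinges h hk s
  have h2 : (hinges (bws s l) : ℝ) = 2 * (k + 1 : ℕ) := by
    rw [h1, hk]
    push_cast
    ring
  have h0 : 0 < hinges (bws s l) := by omega
  constructor
  · have h3 := (Pool.Agent.R807.IN.hV_bounds (bws s l) h0).1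
    rw [h2] at h3
    linarith
  · have h3 := Pool.Agent.K4H4.SY.hV_le (bws s l) h0
    rw [h2] at h3
    have h7 : (Pool.Agent.K4H4.SY.lng (bws s l) : ℝ) ≤ hinges (bws s l) := by
      have : Pool.Agent.K4H4.SY.lng (bws s l) ≤ hinges (bws s l) := by
        unfold Pool.Agent.K4H4.SY.lng hinges
        apply Finset.card_le_card
        intro i hi
        rw [Finset.mem_filter] at hi ⊢
        exact ⟨hi.1, hi.2.1⟩
      exact_mod_cast this
    rw [h2] at h7
    linarith

/-! ### The upper bound -/

open Pool.Agent.W715.VC (dual wpow rep3)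
open Pool.Agent.H239.RF (Lg rt3)

lemma Lg_syl {w : List (ℕ × Bool)} (k : ℕ) (hk : k < 2) (b : Bool) (a : ℕ)
    (hw : ∀ l ∈ w, l.1 < 2) :
    Lg (List.replicate a (k, b) ++ w) ≤ 4 * (8 * lob (π / 4)) + Lg w := by
  have h1 : ∀ l ∈ List.replicate a (k, b), l.1 < 2 := by
    intro l hl
    rw [List.eq_of_mem_replicate hl]
    exact hk
  refine (Pool.Agent.H239.RF.Lg_append h1 hw).trans ?_
  have h2 : List.replicate a (k, b) = Pool.Agent.H239.RF.tw k (if b then (a : ℤ) else -(a : ℤ)) ∨
      a = 0 := by
    by_cases ha : a = 0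
    · exact Or.inr ha
    · left
      unfold Pool.Agent.H239.RF.tw
      cases b
      · simp
        exact Or.inr ha
      · simp
  have h3 : Lg (List.replicate a (k, b)) ≤ 4 * (8 * lob (π / 4)) := by
    rcases h2 with h2 | h2
    · rw [h2, Pool.Agent.H239.RF.Lg_tw hk]
      have h4 := Pool.Agent.H239.RF.ct_oct (if b then (a : ℤ) else -(a : ℤ)).natAbs
      unfold Pool.Agent.H239.RF.ct at h4
      linarith
    · subst h2
      have h5 : Lg (List.replicate 0 (k, b)) = 0 := by
        have : List.replicate 0 (k, b) = Pool.Agent.H239.RF.hw 0 := rfl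
        rw [this]
        exact Pool.Agent.H239.RF.Lg_hw 0
      have h6 : 0 < lob (π / 4) := EvenVol.LobIneq.lob_four_pos
      rw [h5]
      positivity
  linarith

/-- the growth rates of the powers of palindromic braids -/
theorem up_pow {u : List (ℕ × Bool)} (hu : ∀ l ∈ u, l.1 < 2) (n : ℕ) {ε : ℝ} (hε : 0 < ε) :
    ∀ᶠ N : ℕ in atTop, rt3 (wpow (u ++ dual u) n) N ≤ n * Lg u + ε := by
  have h := Pool.Agent.H239.RF.Lg_main (List.replicate n [u, dual u]).flatten (by
    intro v hv
    rw [List.mem_flatten] at hv
    obtain ⟨x, hx, hvx⟩ := hv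
    rw [List.eq_of_mem_replicate hx] at hvx
    simp only [List.mem_cons, List.not_mem_nil, or_false] at hvx
    rcases hvx with rfl | rfl
    · exact hu
    · exact Pool.Agent.H239.RF.dual_lt) hε
  have e1 : ((List.replicate n [u, dual u]).flatten).flatten = wpow (u ++ dual u) n := by
    unfold wpow
    clear h
    induction n with
    | zero => rfl
    | succ n ih =>
      rw [List.replicate_succ, List.flatten_cons, List.flatten_append, List.replicate_succ,
        List.flatten_cons, ih]
      simp
  have e2 : (((List.replicate n [u, dual u]).flatten).map Lg).sum / 2 = n * Lg u := by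
    have : ∀ m : ℕ, (((List.replicate m [u, dual u]).flatten).map Lg).sum = m * (2 * Lg u) := by
      intro m
      induction m with
      | zero => simp
      | succ m ih =>
        rw [List.replicate_succ, List.flatten_cons, List.map_append, List.sum_append, ih]
        simp only [List.map_cons, List.map_nil, List.sum_cons, List.sum_nil,
          Pool.Agent.H239.RF.Lg_dual hu]
        push_cast
        ring
    rw [this]
    ring
  rw [e1, e2] at h
  exact h

end Pool.Agent.H759.KB
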