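import Pool.Agent.H759.KB.Entry

/-!
Words in `s_2` and `s_1⁻¹` on the spaces of highest weight vectors, and the trace.
-/

set_option autoImplicit false

namespace Pool.Agent.H759.KB

open Matrix Finset Pool.Agent.H550R3.Jones Pool.Agent.W715.VC Pool.Agent.V11115.VC
open Pool.Agent.H759.PTB (sc aR aL sc_mul Letter ax)

noncomputable section

variable {N : ℕ}

/-- the letter `s_2` is `R`, the letter `s_1⁻¹` is `L` -/
def toL (l : ℕ × Bool) : Letter := if l = (1, true) then Letter.R else Letter.L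

lemma letter_R {m K d : ℕ} (hm : m < N) (hK : N + K = 2 * m + 1) (hd : d ≤ K) {x : I3 N → ℂ}
    (hx : InK m x) : LL N m (m - d) (g3 N (1, true) *ᵥ x) = cR N m K * (Dg N d *
      ∑ e ∈ range (K + 1), ((ax (K + 1) Letter.R d e : ℂ) * KP.exx (K + 1) (tN N) Letter.R d e) *
        ((Dg N e)⁻¹ * LL N m (m - e) x)) := by
  have hKm : K ≤ m := by omega
  rw [g3_P23, LL_P23 hm (by omega) hx, ← sum_range_reflect]
  have e0 : m + 1 = (K + 1) + (m - K) := by omega
  have e1 : ∀ e ∈ range (m + 1), rt N ^ ((((m - d : ℕ) : ℤ) + 1) * ((m + 1 - 1 - e : ℕ) : ℤ)) *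
      ((qb N ((m : ℤ) - (m - d : ℕ)) (m - (m + 1 - 1 - e)) : ℝ) : ℂ) * LL N m (m + 1 - 1 - e) x =
      rt N ^ ((((m - d : ℕ) : ℤ) + 1) * ((m - e : ℕ) : ℤ)) * ((qb N d e : ℝ) : ℂ) *
        LL N m (m - e) x := by
    intro e he
    rw [mem_range] at he
    have f1 : (m : ℤ) - (m - d : ℕ) = d := by omega
    have f2 : m - (m + 1 - 1 - e) = e := by omega
    have f3 : m + 1 - 1 - e = m - e := by omega
    rw [f1, f2, f3]
  rw [sum_congr rfl e1, e0, sum_range_add]
  have e2 : ∑ x_1 ∈ range (m - K), rt N ^ ((((m - d : ℕ) : ℤ) + 1) * ((m - (K + 1 + x_1) : ℕ) : ℤ)) *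
      ((qb N d (K + 1 + x_1) : ℝ) : ℂ) * LL N m (m - (K + 1 + x_1)) x = 0 := by
    refine sum_eq_zero fun e _ => ?_
    rw [qb_gt (by omega)]; simp
  rw [e2, add_zero, mul_sum, mul_sum, mul_sum]
  refine sum_congr rfl fun e he => ?_
  rw [mem_range] at he
  have h := entry_R (N := N) hm hK hd (by omega : e ≤ K)
  show _ = cR N m K * (Dg N d * (((aR d e : ℂ) * KP.exR (K + 1) d e (tN N))
    * ((Dg N e)⁻¹ * LL N m (m - e) x)))
  linear_combination (LL N m (m - e) x) * h

lemma letter_L {m K d : ℕ} (hm : m < N) (hK : N + K = 2 * m + 1) (hd : d ≤ K) {x : I3 N → ℂ}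
    (hx : InK m x) : LL N m (m - d) (g3 N (0, false) *ᵥ x) = cL N m K * (Dg N d *
      ∑ e ∈ range (K + 1), ((ax (K + 1) Letter.L d e : ℂ) * KP.exx (K + 1) (tN N) Letter.L d e) *
        ((Dg N e)⁻¹ * LL N m (m - e) x)) := by
  rw [g3_Q12, LL_Q12 hm hK hd hx, mul_sum, mul_sum]
  refine sum_congr rfl fun e he => ?_
  rw [mem_range] at he
  have h := entry_L (N := N) hm hK hd (by omega : e ≤ K)
  show _ = cL N m K * (Dg N d * (((aL (K + 1) d e : ℂ) * KP.exL (K + 1) d e (tN N))
    * ((Dg N e)⁻¹ * LL N m (m - e) x)))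
  linear_combination (LL N m (m - e) x) * h

/-- positive words -/
lemma word_eq {m K : ℕ} (hm : m < N) (hK : N + K = 2 * m + 1) (w : List (ℕ × Bool))
    (hw : ∀ l ∈ w, Pos l) : ∃ c : ℂ, ‖c‖ = 1 ∧ ∀ x : I3 N → ℂ, InK m x → ∀ d, d ≤ K →
      LL N m (m - d) (rep3 N w *ᵥ x) = c * (Dg N d * ∑ e ∈ range (K + 1),
        KP.Mt (K + 1) (tN N) (w.map toL) d e * ((Dg N e)⁻¹ * LL N m (m - e) x)) := by
  induction w with
  | nil =>
    refine ⟨1, norm_one, fun x _ d hd => ?_⟩
    rw [rep3_nil, one_mulVec, List.map_nil, sum_eq_single d]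
    · have h := Dg_ne (N := N) (d := d) (by omega)
      simp only [KP.Mt, if_true]
      field_simp
    · intro e _ he
      simp only [KP.Mt]
      rw [if_neg (Ne.symm he), zero_mul]
    · intro h; exact absurd (mem_range.2 (by omega)) h
  | cons l w ih =>
    obtain ⟨c, hc, ih⟩ := ih fun l' hl' => hw l' (List.mem_cons_of_mem _ hl')
    have hgood : ∀ x : I3 N → ℂ, InK m x → InK m (rep3 N w *ᵥ x) :=
      fun x hx => (good_rep3 w).InK hx
    have step : ∀ (c' : ℂ) (y : Letter), ‖c'‖ = 1 → y = toL l →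
        (∀ x : I3 N → ℂ, InK m x → ∀ d, d ≤ K → LL N m (m - d) (g3 N l *ᵥ x) = c' * (Dg N d *
          ∑ e ∈ range (K + 1), ((ax (K + 1) y d e : ℂ) * KP.exx (K + 1) (tN N) y d e) *
            ((Dg N e)⁻¹ * LL N m (m - e) x))) →
        ∃ c : ℂ, ‖c‖ = 1 ∧ ∀ x : I3 N → ℂ, InK m x → ∀ d, d ≤ K →
          LL N m (m - d) (rep3 N (l :: w) *ᵥ x) = c * (Dg N d * ∑ e ∈ range (K + 1),
            KP.Mt (K + 1) (tN N) ((l :: w).map toL) d e * ((Dg N e)⁻¹ * LL N m (m - e) x)) := by
      intro c' y hc' hy hstep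
      refine ⟨c' * c, by rw [norm_mul, hc', hc, one_mul], fun x hx d hd => ?_⟩
      rw [rep3_cons, ← Matrix.mulVec_mulVec, hstep _ (hgood x hx) d hd, List.map_cons, ← hy]
      simp only [KP.Mt_cons, sum_mul]
      rw [sum_comm]
      simp only [mul_sum]
      refine sum_congr rfl fun e he => ?_
      rw [mem_range] at he
      rw [ih x hx e (by omega)]
      have h := Dg_ne (N := N) (d := e) (by omega)
      have e3 : ((ax (K + 1) y d e : ℂ) * KP.exx (K + 1) (tN N) y d e) * ((Dg N e)⁻¹ *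
          (c * (Dg N e * ∑ e_1 ∈ range (K + 1), KP.Mt (K + 1) (tN N) (w.map toL) e e_1 *
            ((Dg N e_1)⁻¹ * LL N m (m - e_1) x)))) =
          c * (((ax (K + 1) y d e : ℂ) * KP.exx (K + 1) (tN N) y d e) *
          ∑ e_1 ∈ range (K + 1), KP.Mt (K + 1) (tN N) (w.map toL) e e_1 *
            ((Dg N e_1)⁻¹ * LL N m (m - e_1) x)) := by
        field_simp
      rw [e3, mul_sum, mul_sum, mul_sum, mul_sum]
      refine sum_congr rfl fun e' _ => ?_
      ring
    rcases hw l List.mem_cons_self with rfl | rfl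
    · exact step (cR N m K) Letter.R (norm_cR N m K) rfl
        fun x hx d hd => letter_R hm hK hd hx
    · exact step (cL N m K) Letter.L (norm_cL N m K) rfl
        fun x hx d hd => letter_L hm hK hd hx

lemma SS1_coord {m K k : ℕ} (hm : m < N) (hK : N + K = 2 * m + 1) (hk : k ≤ K) {z : I3 N → ℂ}
    (hzc : ∀ i, i ≤ m → LL N m i z = if i = m - k then 1 else 0) :
    SS1 N m z = DD N m (m - k) := by
  unfold SS1
  rw [sum_eq_single (m - k)]
  · rw [hzc _ (by omega), if_pos rfl]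
    simp
  · intro i hi hih
    rw [mem_range] at hi
    rw [hzc _ (by omega), if_neg hih]; simp
  · intro h1; exact absurd (mem_range.2 (by omega)) h1

/-- **The trace of a block and the Kashaev invariant.** -/
theorem block_le {m K : ℕ} (hm : m < N) (hK : N + K = 2 * m + 1) {w : List (ℕ × Bool)}
    (hw : ∀ l ∈ w, Pos l) :
    ‖KP.ft (K + 1) ((w ++ dual w).map toL) (tN N)‖ ≤
      ((K : ℝ) + 1) * ((rep3 N (w ++ dual w)).trace.re + (N : ℝ) ^ 3 + 2) := by
  have hN : 0 < N := by omega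
  have hu : ∀ l ∈ w, l.1 < 2 := fun l hl => by rcases hw l hl with rfl | rfl <;> norm_num
  have hW : ∀ l ∈ w ++ dual w, Pos l := by
    intro l hl
    rcases List.mem_append.1 hl with h | h
    · exact hw l h
    · exact dual_pos hw l h
  have hLR : ∀ x ∈ (w ++ dual w).map toL, x = Letter.L ∨ x = Letter.R := by
    intro x hx
    obtain ⟨l, _, rfl⟩ := List.mem_map.1 hx
    unfold toL
    split_ifs
    · exact Or.inr rfl
    · exact Or.inl rfl
  obtain ⟨c, hc, hword⟩ := word_eq hm hK (w ++ dual w) hW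
  set B := rep3 N (w ++ dual w) with hB
  have had : hadj (rep3 N w) = rep3 N (dual w) := hadj_rep3 hN hu
  -- the coordinate vectors
  have hk : ∀ k, k ≤ K → ∃ r : ℝ, r ≤ B.trace.re + (N : ℝ) ^ 3 + 2 ∧ 0 ≤ r ∧
      c * KP.Mt (K + 1) (tN N) ((w ++ dual w).map toL) k k = (r : ℂ) := by
    intro k hk
    obtain ⟨z, hz, hzc⟩ := exists_coord hm (fun i => if i = m - k then 1 else 0)
    have hS := SS1_coord hm hK hk hzc
    have hDp : 0 < DD N m (m - k) := by
      rw [DD_eq hm hK hk]; exact qb_pos (by omega) (by omega)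
    have hSp : 0 < SS1 N m z := by rw [hS]; exact hDp
    have hR := rayleigh hN hu hm (by omega) hz hSp
    refine ⟨SS1 N m (rep3 N (dual w) *ᵥ z) / SS1 N m z, by linarith,
      div_nonneg (SS1_nonneg hm _) hSp.le, ?_⟩
    -- the diagonal coordinate
    have h1 : LL N m (m - k) (B *ᵥ z) =
        c * KP.Mt (K + 1) (tN N) ((w ++ dual w).map toL) k k := by
      rw [hword z hz k hk, sum_eq_single k]
      · rw [hzc _ (by omega), if_pos rfl]
        have h := Dg_ne (N := N) (d := k) (by omega)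
        field_simp
      · intro e he hek
        rw [mem_range] at he
        rw [hzc _ (by omega), if_neg (by omega)]
        simp
      · intro h; exact absurd (mem_range.2 (by omega)) h
    have h2 : S2 N m z (B *ᵥ z) = ((DD N m (m - k) : ℝ) : ℂ) * LL N m (m - k) (B *ᵥ z) := by
      unfold S2
      rw [sum_eq_single (m - k)]
      · rw [hzc _ (by omega), if_pos rfl, map_one, one_mul]
      · intro i hi hid
        rw [mem_range] at hi
        rw [hzc _ (by omega), if_neg hid, map_zero, zero_mul, mul_zero]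
      · intro h; exact absurd (mem_range.2 (by omega)) h
    have h3 : S2 N m z (B *ᵥ z) = ((SS1 N m (rep3 N (dual w) *ᵥ z) : ℝ) : ℂ) := by
      have had' : hadj (rep3 N (dual w)) = rep3 N w := by rw [← had, hadj_hadj]
      rw [hB, rep3_append, ← Matrix.mulVec_mulVec,
        ← S2_adj hm (by omega) had' (good_rep3 _) (good_rep3 _) hz ((good_rep3 _).InK hz), S2_self]
    rw [← h1]
    have hD : ((DD N m (m - k) : ℝ) : ℂ) ≠ 0 := by exact_mod_cast hDp.ne'
    rw [hS]
    push_cast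
    rw [eq_div_iff hD, ← h3, h2]
    ring
  choose! r hr1 hr0 hr2 using hk
  have hsum : c * KP.ft (K + 1) ((w ++ dual w).map toL) (tN N)
      = ((∑ k ∈ range (K + 1), r k : ℝ) : ℂ) := by
    rw [KP.ft_eq _ _ hLR, mul_sum]
    push_cast
    refine sum_congr rfl fun k hk => ?_
    rw [mem_range] at hk
    exact hr2 k (by omega)
  have hn : ‖KP.ft (K + 1) ((w ++ dual w).map toL) (tN N)‖ = ∑ k ∈ range (K + 1), r k := by
    have h4 := congrArg norm hsum
    rw [norm_mul, hc, one_mul, Complex.norm_real, Real.norm_of_nonneg (sum_nonneg fun k hk => by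
      rw [mem_range] at hk; exact hr0 k (by omega))] at h4
    exact h4
  rw [hn]
  calc ∑ k ∈ range (K + 1), r k ≤ ∑ _k ∈ range (K + 1), (B.trace.re + (N : ℝ) ^ 3 + 2) :=
        sum_le_sum fun k hk => by rw [mem_range] at hk; exact hr1 k (by omega)
    _ = _ := by rw [sum_const, card_range, nsmul_eq_mul]; push_cast; ring

end

end Pool.Agent.H759.KB
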